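import Mathlib

set_option autoImplicit false

namespace Pool.Agent.Results.MP_433145_co.CubicMaximality

open Equiv Finset

/-- The permutation of the positions which moves the `j`-th smallest element `i_j` of `I` to
`i_{S[k](j)}`, where `k = |I|`, and fixes the positions outside `I`. -/
def shuffle {n : ℕ} (S : (k : ℕ) → Perm (Fin k)) (I : Finset (Fin n)) : Perm (Fin n) :=
  (S I.card).extendDomain (I.orderIsoOfFin rfl).toEquiv

/-- The guess following the guess `γ` when the secret permutation is `π`. -/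
def nextGuess {n : ℕ} (S : (k : ℕ) → Perm (Fin k)) (π γ : Perm (Fin n)) : Perm (Fin n) :=
  γ * (shuffle S (Finset.univ.filter (fun i => γ i ≠ π i)))⁻¹

/-- The series `f_S(x) = ∑ a_r(S) x^r`; `a_r(S)` is the number of secret permutations for which
the first `t ≥ 1` such that the `t`-th guess equals the secret is `t = r`. -/
noncomputable def gameSeries (n : ℕ) (S : (k : ℕ) → Perm (Fin k)) : PowerSeries ℕ :=
  PowerSeries.mk fun r =>
    Nat.card {π : Perm (Fin n) // IsLeast {t : ℕ | 1 ≤ t ∧ (nextGuess S π)^[t - 1] 1 = π} r}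

section basic

variable {n : ℕ} (S : (k : ℕ) → Perm (Fin k)) (I : Finset (Fin n))

lemma shuffle_apply (j : Fin I.card) :
    shuffle S I (I.orderIsoOfFin rfl j : Fin n) = (I.orderIsoOfFin rfl (S I.card j) : Fin n) := by
  unfold shuffle
  exact Equiv.Perm.extendDomain_apply_image _ (I.orderIsoOfFin rfl).toEquiv j

lemma shuffle_notMem {y : Fin n} (hy : y ∉ I) : shuffle S I y = y := by
  unfold shuffle
  exact Equiv.Perm.extendDomain_apply_not_subtype _ _ hy

lemma exists_index {y : Fin n} (hy : y ∈ I) : ∃ j : Fin I.card, (I.orderIsoOfFin rfl j : Fin n) = y := by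
  refine ⟨(I.orderIsoOfFin rfl).symm ⟨y, hy⟩, ?_⟩
  simp

lemma shuffle_mem {y : Fin n} (hy : y ∈ I) : shuffle S I y ∈ I := by
  obtain ⟨j, rfl⟩ := exists_index I hy
  rw [shuffle_apply]
  exact (I.orderIsoOfFin rfl (S I.card j)).2

lemma shuffle_ne {y : Fin n} (hy : y ∈ I) (hd : ∀ j, S I.card j ≠ j) : shuffle S I y ≠ y := by
  obtain ⟨j, rfl⟩ := exists_index I hy
  rw [shuffle_apply]
  intro h
  have h2 := (I.orderIsoOfFin rfl).injective (Subtype.ext h)
  exact hd j h2

lemma shuffle_small (h : I.card ≤ 1) : shuffle S I = 1 := by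
  ext y
  by_cases hy : y ∈ I
  · have h1 := shuffle_mem S I hy
    have := Finset.card_le_one.mp h _ h1 _ hy
    simp [this]
  · simp [shuffle_notMem S I hy]

end basic

/-- The pairs (wrong positions after the first guess, wrong positions after the second guess)
for secrets found at the third guess. -/
def pairs (n : ℕ) (S : (k : ℕ) → Perm (Fin k)) : Finset (Finset (Fin n) × Finset (Fin n)) :=
  Finset.univ.filter fun P => P.2 ⊆ P.1 ∧ 2 ≤ P.2.card ∧
    ∀ y ∈ P.2, shuffle S P.1 (shuffle S P.2 y) ≠ y

lemma isLeast_three {n : ℕ} (S : (k : ℕ) → Perm (Fin k)) (π : Perm (Fin n)) :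
    IsLeast {t : ℕ | 1 ≤ t ∧ (nextGuess S π)^[t - 1] 1 = π} 3 ↔
      (1 : Perm (Fin n)) ≠ π ∧ nextGuess S π 1 ≠ π ∧ nextGuess S π (nextGuess S π 1) = π := by
  constructor
  · rintro ⟨h3, hl⟩
    refine ⟨fun h => ?_, fun h => ?_, ?_⟩
    · have := hl (show 1 ∈ {t : ℕ | 1 ≤ t ∧ (nextGuess S π)^[t - 1] 1 = π} from
        ⟨le_refl _, by simpa using h⟩)
      omega
    · have := hl (show 2 ∈ {t : ℕ | 1 ≤ t ∧ (nextGuess S π)^[t - 1] 1 = π} from
        ⟨by norm_num, by simpa using h⟩)
      omega
    · simpa [Function.iterate_succ] using h3.2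
  · rintro ⟨h1, h2, h3⟩
    refine ⟨⟨by norm_num, by simpa [Function.iterate_succ] using h3⟩, ?_⟩
    rintro t ⟨ht1, ht⟩
    by_contra hlt
    push Not at hlt
    interval_cases t
    · exact h1 (by simpa using ht)
    · exact h2 (by simpa using ht)

/-- wrong positions -/
def wrong {n : ℕ} (π γ : Perm (Fin n)) : Finset (Fin n) :=
  Finset.univ.filter (fun i => γ i ≠ π i)

lemma mem_wrong {n : ℕ} (π γ : Perm (Fin n)) (i : Fin n) : i ∈ wrong π γ ↔ γ i ≠ π i :=
  Finset.mem_filter_univ i

lemma nextGuess_eq {n : ℕ} (S : (k : ℕ) → Perm (Fin k)) (π γ : Perm (Fin n)) :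
    nextGuess S π γ = γ * (shuffle S (wrong π γ))⁻¹ := rfl

lemma card_wrong_ne_one {n : ℕ} (π γ : Perm (Fin n)) : (wrong π γ).card ≠ 1 := by
  intro h
  obtain ⟨a, ha⟩ := Finset.card_eq_one.mp h
  have hmem : ∀ i, i ≠ a → γ i = π i := by
    intro i hi
    by_contra hne
    have : i ∈ wrong π γ := (mem_wrong _ _ _).mpr hne
    rw [ha] at this
    exact hi (by simpa using this)
  have haw : γ a ≠ π a := by
    have : a ∈ wrong π γ := by rw [ha]; simp
    exact (mem_wrong _ _ _).mp this
  -- the preimage of `π a` under `γ`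
  obtain ⟨b, hb⟩ := γ.surjective (π a)
  by_cases hba : b = a
  · subst hba
    exact haw hb
  · have := hmem b hba
    rw [hb] at this
    exact hba (π.injective this).symm

theorem card_le_pairs (n : ℕ) (S : (k : ℕ) → Perm (Fin k)) :
    PowerSeries.coeff 3 (gameSeries n S) ≤ (pairs n S).card := by
  unfold gameSeries
  rw [PowerSeries.coeff_mk]
  have key : ∀ π : {π : Perm (Fin n) // IsLeast {t : ℕ | 1 ≤ t ∧ (nextGuess S π)^[t - 1] 1 = π} 3},
      ((wrong π.1 1, wrong π.1 (nextGuess S π.1 1)) : Finset (Fin n) × Finset (Fin n)) ∈ pairs n S := by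
    rintro ⟨π, hπ⟩
    rw [isLeast_three] at hπ
    obtain ⟨h1, h2, h3⟩ := hπ
    set I := wrong π 1 with hI
    set γ := nextGuess S π 1 with hγ
    set I' := wrong π γ with hI'
    have hγ' : γ = (shuffle S I)⁻¹ := by
      rw [hγ, nextGuess_eq, one_mul]
    have hπ' : π = γ * (shuffle S I')⁻¹ := by
      rw [← h3]; rfl
    have hI'0 : I'.card ≠ 0 := by
      intro h0
      rw [Finset.card_eq_zero] at h0
      apply h2
      ext1 i
      by_contra hne
      have : i ∈ I' := (mem_wrong _ _ _).mpr hne
      rw [h0] at this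
      simp at this
    have hI'2 : 2 ≤ I'.card := by
      have h1' : I'.card ≠ 1 := card_wrong_ne_one π γ
      omega
    have hsub : I' ⊆ I := by
      intro i hi
      by_contra hni
      have e1 : π i = i := by
        by_contra hne
        exact hni ((mem_wrong _ _ _).mpr fun h => hne h.symm)
      have e2 : γ i = i := by
        rw [hγ', Perm.inv_eq_iff_eq, shuffle_notMem S I hni]
      have e3 : γ i ≠ π i := (mem_wrong _ _ _).mp hi
      exact e3 (by rw [e1, e2])
    simp only [pairs, Finset.mem_filter, Finset.mem_univ, true_and]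
    refine ⟨hsub, hI'2, ?_⟩
    intro y hy hbad
    -- `π` would fix `z = shuffle I' y`
    have hz : shuffle S I' y ∈ I' := shuffle_mem S I' hy
    have e1 : π (shuffle S I' y) = shuffle S I' y := by
      have e0 : (shuffle S I')⁻¹ (shuffle S I' y) = y := by
        rw [Perm.inv_eq_iff_eq]
      conv_lhs => rw [hπ', Perm.mul_apply, e0, hγ']
      rw [Perm.inv_eq_iff_eq]
      exact hbad.symm
    have e2 := (mem_wrong _ _ _).mp (hsub hz)
    exact e2 e1.symm
  have hinj : Function.Injective (fun π : {π : Perm (Fin n) //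
      IsLeast {t : ℕ | 1 ≤ t ∧ (nextGuess S π)^[t - 1] 1 = π} 3} =>
      (⟨(wrong π.1 1, wrong π.1 (nextGuess S π.1 1)), key π⟩ : {P // P ∈ pairs n S})) := by
    rintro ⟨π, hπ⟩ ⟨ρ, hρ⟩ h
    rw [Subtype.mk.injEq, Prod.mk.injEq] at h
    obtain ⟨ha, hb⟩ := h
    have hπ3 := ((isLeast_three S π).mp hπ).2.2
    have hρ3 := ((isLeast_three S ρ).mp hρ).2.2
    have hg : nextGuess S π 1 = nextGuess S ρ 1 := by
      rw [nextGuess_eq, nextGuess_eq, ha]
    apply Subtype.ext
    change π = ρ
    have hb' : wrong π (nextGuess S π 1) = wrong ρ (nextGuess S ρ 1) := hb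
    rw [← hπ3, ← hρ3, nextGuess_eq S π (nextGuess S π 1), nextGuess_eq S ρ (nextGuess S ρ 1),
      hb', hg]
  have := Nat.card_le_card_of_injective _ hinj
  simpa using this

theorem pairs_le_card (n : ℕ) (S : (k : ℕ) → Perm (Fin k))
    (hS : ∀ k, 2 ≤ k → k ≤ n → ∀ j, S k j ≠ j) :
    (pairs n S).card ≤ PowerSeries.coeff 3 (gameSeries n S) := by
  unfold gameSeries
  rw [PowerSeries.coeff_mk]
  have cardle : ∀ I : Finset (Fin n), I.card ≤ n := fun I => by
    simpa using Finset.card_le_univ I
  -- facts on a pair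
  have facts : ∀ P ∈ pairs n S,
      wrong ((shuffle S P.1)⁻¹ * (shuffle S P.2)⁻¹) 1 = P.1 ∧
      wrong ((shuffle S P.1)⁻¹ * (shuffle S P.2)⁻¹) ((shuffle S P.1)⁻¹) = P.2 := by
    rintro ⟨I, I'⟩ hP
    simp only [pairs, Finset.mem_filter, Finset.mem_univ, true_and] at hP
    obtain ⟨hsub, h2, hgood⟩ := hP
    have hI2 : 2 ≤ I.card := le_trans h2 (Finset.card_le_card hsub)
    constructor
    · ext i
      rw [mem_wrong, Perm.mul_apply, Perm.coe_one, id]
      constructor
      · intro h
        by_contra hni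
        apply h
        symm
        rw [Perm.inv_eq_iff_eq, shuffle_notMem S I hni, Perm.inv_eq_iff_eq,
          shuffle_notMem S I' (fun hc => hni (hsub hc))]
      · intro hi h
        have h' : shuffle S I' (shuffle S I i) = i := by
          have := h.symm
          rw [Perm.inv_eq_iff_eq] at this
          rw [Perm.inv_eq_iff_eq] at this
          exact this.symm
        by_cases hc : shuffle S I i ∈ I'
        · have hy : i ∈ I' := by
            have := shuffle_mem S I' hc
            rwa [h'] at this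
          -- take `y = shuffle I i`
          refine hgood (shuffle S I i) hc ?_
          rw [h']
        · rw [shuffle_notMem S I' hc] at h'
          exact shuffle_ne S I hi (hS _ hI2 (cardle I)) h'
    · ext i
      rw [mem_wrong, Perm.mul_apply]
      constructor
      · intro h
        by_contra hni
        apply h
        congr 1
        symm
        rw [Perm.inv_eq_iff_eq, shuffle_notMem S I' hni]
      · intro hi h
        have h' := (shuffle S I)⁻¹.injective h
        have h'' : shuffle S I' i = i := by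
          have := h'.symm
          rw [Perm.inv_eq_iff_eq] at this
          exact this.symm
        exact shuffle_ne S I' hi (hS _ h2 (cardle I')) h''
  have key : ∀ P : {P // P ∈ pairs n S},
      IsLeast {t : ℕ | 1 ≤ t ∧
        (nextGuess S ((shuffle S P.1.1)⁻¹ * (shuffle S P.1.2)⁻¹))^[t - 1] 1 =
          (shuffle S P.1.1)⁻¹ * (shuffle S P.1.2)⁻¹} 3 := by
    rintro ⟨⟨I, I'⟩, hP⟩
    obtain ⟨f1, f2⟩ := facts _ hP
    simp only at f1 f2
    rw [isLeast_three]
    simp only [pairs, Finset.mem_filter, Finset.mem_univ, true_and] at hP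
    obtain ⟨hsub, h2, hgood⟩ := hP
    have hI2 : 2 ≤ I.card := le_trans h2 (Finset.card_le_card hsub)
    have g2 : nextGuess S ((shuffle S I)⁻¹ * (shuffle S I')⁻¹) 1 = (shuffle S I)⁻¹ := by
      rw [nextGuess_eq, one_mul, f1]
    refine ⟨?_, ?_, ?_⟩
    · intro h
      have : wrong ((shuffle S I)⁻¹ * (shuffle S I')⁻¹) 1 = ∅ := by
        rw [← h]
        ext i
        simp [mem_wrong]
      rw [f1] at this
      rw [this] at hI2
      simp at hI2
    · rw [g2]
      intro h
      have : wrong ((shuffle S I)⁻¹ * (shuffle S I')⁻¹) ((shuffle S I)⁻¹) = ∅ := by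
        rw [← h]
        ext i
        simp [mem_wrong]
      rw [f2] at this
      rw [this] at h2
      simp at h2
    · rw [g2, nextGuess_eq, f2]
  have hinj : Function.Injective (fun P : {P // P ∈ pairs n S} =>
      (⟨(shuffle S P.1.1)⁻¹ * (shuffle S P.1.2)⁻¹, key P⟩ :
        {π : Perm (Fin n) // IsLeast {t : ℕ | 1 ≤ t ∧ (nextGuess S π)^[t - 1] 1 = π} 3})) := by
    rintro ⟨P, hP⟩ ⟨Q, hQ⟩ h
    rw [Subtype.mk.injEq] at h
    obtain ⟨f1, f2⟩ := facts _ hP
    obtain ⟨g1, g2⟩ := facts _ hQ
    simp only at h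
    have e1 : P.1 = Q.1 := by rw [← f1, ← g1, h]
    have e2 : P.2 = Q.2 := by
      rw [← f2, ← g2, h, e1]
    apply Subtype.ext
    exact Prod.ext e1 e2
  have := Nat.card_le_card_of_injective _ hinj
  simpa using this

/-- the subsets of `I` that can not be the second wrong set -/
def badSets {n : ℕ} (S : (k : ℕ) → Perm (Fin k)) (I : Finset (Fin n)) : Finset (Finset (Fin n)) :=
  Finset.univ.filter fun J => J ⊆ I ∧ 2 ≤ J.card ∧ ∃ y ∈ J, shuffle S I (shuffle S J y) = y

lemma mem_badSets {n : ℕ} (S : (k : ℕ) → Perm (Fin k)) (I J : Finset (Fin n)) :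
    J ∈ badSets S I ↔ J ⊆ I ∧ 2 ≤ J.card ∧ ∃ y ∈ J, shuffle S I (shuffle S J y) = y :=
  Finset.mem_filter_univ J

/-- the subsets of `I` that are the second wrong set for some secret -/
def goodSets {n : ℕ} (S : (k : ℕ) → Perm (Fin k)) (I : Finset (Fin n)) : Finset (Finset (Fin n)) :=
  Finset.univ.filter fun J => J ⊆ I ∧ 2 ≤ J.card ∧ ∀ y ∈ J, shuffle S I (shuffle S J y) ≠ y

lemma mem_goodSets {n : ℕ} (S : (k : ℕ) → Perm (Fin k)) (I J : Finset (Fin n)) :
    J ∈ goodSets S I ↔ J ⊆ I ∧ 2 ≤ J.card ∧ ∀ y ∈ J, shuffle S I (shuffle S J y) ≠ y :=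
  Finset.mem_filter_univ J

lemma good_add_bad {n : ℕ} (S : (k : ℕ) → Perm (Fin k)) (I : Finset (Fin n)) :
    (goodSets S I).card + (badSets S I).card =
      (Finset.univ.filter fun J : Finset (Fin n) => J ⊆ I ∧ 2 ≤ J.card).card := by
  rw [← Finset.card_union_of_disjoint]
  · congr 1
    ext J
    rw [Finset.mem_union, mem_goodSets, mem_badSets, Finset.mem_filter_univ]
    constructor
    · rintro (h | h)
      · exact ⟨h.1, h.2.1⟩
      · exact ⟨h.1, h.2.1⟩
    · rintro ⟨h1, h2⟩
      by_cases h : ∀ y ∈ J, shuffle S I (shuffle S J y) ≠ y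
      · exact Or.inl ⟨h1, h2, h⟩
      · push Not at h
        exact Or.inr ⟨h1, h2, h⟩
  · rw [Finset.disjoint_left]
    intro J h1 h2
    rw [mem_goodSets] at h1
    rw [mem_badSets] at h2
    obtain ⟨y, hy, h⟩ := h2.2.2
    exact h1.2.2 y hy h

lemma card_pairs {n : ℕ} (S : (k : ℕ) → Perm (Fin k)) :
    (pairs n S).card = ∑ I : Finset (Fin n), (goodSets S I).card := by
  rw [← Finset.card_sigma]
  symm
  apply Finset.card_bij (fun (P : (_ : Finset (Fin n)) × Finset (Fin n)) _ => (P.1, P.2))
  · rintro ⟨I, J⟩ h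
    rw [Finset.mem_sigma] at h
    have h2 := h.2
    rw [mem_goodSets] at h2
    unfold pairs
    rw [Finset.mem_filter_univ]
    exact h2
  · rintro ⟨I, J⟩ _ ⟨I', J'⟩ _ h
    rw [Prod.mk.injEq] at h
    obtain ⟨h1, h2⟩ := h
    simp only at h1 h2
    subst h1 h2
    rfl
  · rintro ⟨I, J⟩ h
    unfold pairs at h
    rw [Finset.mem_filter_univ] at h
    exact ⟨⟨I, J⟩, Finset.mem_sigma.mpr ⟨Finset.mem_univ _, (mem_goodSets _ _ _).mpr h⟩, rfl⟩

/-- two-element sets `{y, σ y}` are bad -/
lemma pair_bad {n : ℕ} (S : (k : ℕ) → Perm (Fin k)) (I : Finset (Fin n)) (hI : 2 ≤ I.card)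
    (hd : ∀ k, 2 ≤ k → k ≤ n → ∀ j, S k j ≠ j) {y : Fin n} (hy : y ∈ I) :
    ({y, shuffle S I y} : Finset (Fin n)) ∈ badSets S I := by
  have hne : shuffle S I y ≠ y := shuffle_ne S I hy (hd _ hI (by simpa using Finset.card_le_univ I))
  have hcard : ({y, shuffle S I y} : Finset (Fin n)).card = 2 := Finset.card_pair hne.symm
  have hn2 : 2 ≤ n := le_trans hI (by simpa using Finset.card_le_univ I)
  rw [mem_badSets]
  refine ⟨?_, hcard.ge, shuffle S I y, by simp, ?_⟩
  · intro z hz
    rw [Finset.mem_insert, Finset.mem_singleton] at hz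
    rcases hz with rfl | rfl
    · exact hy
    · exact shuffle_mem S I hy
  · have hz : shuffle S I y ∈ ({y, shuffle S I y} : Finset (Fin n)) := by simp
    have h1 := shuffle_mem S _ hz
    have h2 := shuffle_ne S _ hz (by rw [hcard]; exact hd 2 le_rfl hn2)
    rw [Finset.mem_insert, Finset.mem_singleton] at h1
    rcases h1 with h1 | h1
    · rw [h1]
    · exact absurd h1 h2

/-- three-element sets containing a two-cycle of `σ` are bad -/
lemma triple_bad {n : ℕ} (S : (k : ℕ) → Perm (Fin k)) (I : Finset (Fin n)) (hI : 3 ≤ I.card)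
    (hd : ∀ k, 2 ≤ k → k ≤ n → ∀ j, S k j ≠ j) {y z : Fin n} (hy : y ∈ I) (hz : z ∈ I)
    (hzy : z ≠ y) (hzs : z ≠ shuffle S I y) (h2c : shuffle S I (shuffle S I y) = y) :
    ({y, shuffle S I y, z} : Finset (Fin n)) ∈ badSets S I := by
  have hIn : I.card ≤ n := by simpa using Finset.card_le_univ I
  have hne : shuffle S I y ≠ y := shuffle_ne S I hy (hd _ (by omega) hIn)
  have hcard : ({y, shuffle S I y, z} : Finset (Fin n)).card = 3 := by
    rw [Finset.card_eq_three]
    exact ⟨y, shuffle S I y, z, hne.symm, hzy.symm, hzs.symm, rfl⟩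
  set x := shuffle S I y with hx
  set J : Finset (Fin n) := {y, x, z} with hJ
  have hdJ : ∀ j, S J.card j ≠ j := by rw [hcard]; exact hd 3 (by norm_num) (by omega)
  rw [mem_badSets]
  refine ⟨?_, by omega, ?_⟩
  · intro w hw
    rw [hJ, Finset.mem_insert, Finset.mem_insert, Finset.mem_singleton] at hw
    rcases hw with rfl | rfl | rfl
    · exact hy
    · exact shuffle_mem S I hy
    · exact hz
  · have hyJ : y ∈ J := by simp [hJ]
    have hxJ : x ∈ J := by simp [hJ]
    have a1 := shuffle_mem S J hyJ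
    have a2 := shuffle_ne S J hyJ hdJ
    have b1 := shuffle_mem S J hxJ
    have b2 := shuffle_ne S J hxJ hdJ
    have hinj : shuffle S J y ≠ shuffle S J x := fun h => hne ((shuffle S J).injective h).symm
    rw [hJ, Finset.mem_insert, Finset.mem_insert, Finset.mem_singleton, ← hJ] at a1 b1
    rcases a1 with a1 | a1 | a1
    · exact absurd a1 a2
    · exact ⟨y, hyJ, by rw [a1]; exact h2c⟩
    · rcases b1 with b1 | b1 | b1
      · exact ⟨x, hxJ, by rw [b1]⟩
      · exact absurd b1 b2
      · exact absurd (a1.trans b1.symm) hinj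

lemma card_le_bad {n : ℕ} (S : (k : ℕ) → Perm (Fin k)) (I : Finset (Fin n)) (hI : 3 ≤ I.card)
    (hd : ∀ k, 2 ≤ k → k ≤ n → ∀ j, S k j ≠ j) : I.card ≤ (badSets S I).card := by
  classical
  have hIn : I.card ≤ n := by simpa using Finset.card_le_univ I
  have hne : ∀ y ∈ I, shuffle S I y ≠ y := fun y hy => shuffle_ne S I hy (hd _ (by omega) hIn)
  -- a third element
  have hthird : ∀ y : Fin n, ∃ z ∈ I, z ≠ y ∧ z ≠ shuffle S I y := by
    intro y
    have : ∃ z ∈ I, z ∉ ({y, shuffle S I y} : Finset (Fin n)) := by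
      by_contra hcon
      push Not at hcon
      have h1 := Finset.card_le_card (show I ⊆ ({y, shuffle S I y} : Finset (Fin n)) from hcon)
      have h2 := Finset.card_le_two (a := y) (b := shuffle S I y)
      omega
    obtain ⟨z, hz, hz2⟩ := this
    rw [Finset.mem_insert, Finset.mem_singleton, not_or] at hz2
    exact ⟨z, hz, hz2.1, hz2.2⟩
  choose third h3I h3a h3b using hthird
  let f : Fin n → Finset (Fin n) := fun y =>
    if shuffle S I (shuffle S I y) = y ∧ shuffle S I y < y then {y, shuffle S I y, third y}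
    else {y, shuffle S I y}
  apply Finset.card_le_card_of_injOn f
  · intro y hy
    have hy' : y ∈ I := hy
    simp only [f]
    split_ifs with h
    · exact triple_bad S I hI hd hy' (h3I y) (h3a y) (h3b y) h.1
    · exact pair_bad S I (by omega) hd hy'
  · intro y hy y' hy' h
    have hyI : y ∈ I := hy
    have hyI' : y' ∈ I := hy'
    have c2 : ∀ w ∈ I, ({w, shuffle S I w} : Finset (Fin n)).card = 2 := fun w hw =>
      Finset.card_pair (hne w hw).symm
    have c3 : ∀ w ∈ I, ({w, shuffle S I w, third w} : Finset (Fin n)).card = 3 := fun w hw => by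
      rw [Finset.card_eq_three]
      exact ⟨w, shuffle S I w, third w, (hne w hw).symm, (h3a w).symm, (h3b w).symm, rfl⟩
    simp only [f] at h
    split_ifs at h with h1 h2 h2
    · -- both triples
      by_contra hyy
      have m1 : y ∈ ({y', shuffle S I y', third y'} : Finset (Fin n)) := by rw [← h]; simp
      have m2 : shuffle S I y ∈ ({y', shuffle S I y', third y'} : Finset (Fin n)) := by
        rw [← h]; simp
      rw [Finset.mem_insert, Finset.mem_insert, Finset.mem_singleton] at m1 m2
      rcases m1 with m1 | m1 | m1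
      · exact hyy m1
      · rw [m1, h2.1] at h1
        exact absurd h1.2 (not_lt.mpr h2.2.le)
      · rcases m2 with m2 | m2 | m2
        · -- σ y = y', so σ y' = y = third y'
          have : y = shuffle S I y' := by rw [← m2, h1.1]
          exact h3b y' (by rw [← m1]; exact this)
        · exact hyy ((shuffle S I).injective m2)
        · exact (hne y hyI) (by rw [m2, ← m1])
    · have e1 := c3 y hyI
      have e2 := c2 y' hyI'
      rw [h] at e1
      omega
    · have e1 := c2 y hyI
      have e2 := c3 y' hyI'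
      rw [h] at e1
      omega
    · by_contra hyy
      have m1 : y ∈ ({y', shuffle S I y'} : Finset (Fin n)) := by rw [← h]; simp
      have m2 : shuffle S I y ∈ ({y', shuffle S I y'} : Finset (Fin n)) := by rw [← h]; simp
      rw [Finset.mem_insert, Finset.mem_singleton] at m1 m2
      rcases m1 with m1 | m1
      · exact hyy m1
      · rcases m2 with m2 | m2
        · -- y = σ y', y' = σ y: a two-cycle
          rcases lt_trichotomy y y' with hlt | heq | hgt
          · apply h2
            refine ⟨by rw [← m1, m2], by rw [← m1]; exact hlt⟩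
          · exact hyy heq
          · apply h1
            refine ⟨by rw [m2, ← m1], by rw [m2]; exact hgt⟩
        · exact hyy ((shuffle S I).injective m2)

lemma finRotate_val (k : ℕ) (i : Fin k) :
    ((finRotate k i : Fin k) : ℕ) = if (i : ℕ) + 1 = k then 0 else (i : ℕ) + 1 := by
  cases k with
  | zero => exact i.elim0
  | succ m =>
    rw [coe_finRotate]
    by_cases h : i = Fin.last m
    · subst h
      simp
    · have h' : ¬ ((i : ℕ) + 1 = m + 1) := by
        intro hh
        apply h
        ext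
        simp
        omega
      rw [if_neg h, if_neg h']

/-- the cyclic successor in `I` of an element of `J`, when it lies in `J`, is its cyclic successor
in `J` -/
lemma shuffle_rotate_sub {n : ℕ} (I J : Finset (Fin n)) (hJI : J ⊆ I) {z y : Fin n} (hz : z ∈ J)
    (hy : y ∈ J) (h : shuffle finRotate I z = y) : shuffle finRotate J z = y := by
  obtain ⟨j, hj⟩ := exists_index I (hJI hz)
  obtain ⟨a, ha⟩ := exists_index J hz
  obtain ⟨b, hb⟩ := exists_index J hy
  have hy1 : (I.orderIsoOfFin rfl (finRotate _ j) : Fin n) = y := by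
    rw [← shuffle_apply, hj, h]
  have key : finRotate _ a = b := by
    apply Fin.ext
    rw [finRotate_val]
    have hjv := finRotate_val _ j
    -- monotonicity facts
    have monoI : ∀ l l' : Fin I.card, l < l' →
        (I.orderIsoOfFin rfl l : Fin n) < (I.orderIsoOfFin rfl l' : Fin n) := fun l l' hll =>
      (I.orderIsoOfFin rfl).strictMono hll
    have monoJ : ∀ l l' : Fin J.card, l < l' →
        (J.orderIsoOfFin rfl l : Fin n) < (J.orderIsoOfFin rfl l' : Fin n) := fun l l' hll =>
      (J.orderIsoOfFin rfl).strictMono hll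
    have leI : ∀ l l' : Fin I.card, (I.orderIsoOfFin rfl l : Fin n) ≤ (I.orderIsoOfFin rfl l' : Fin n) →
        l ≤ l' := fun l l' hll => by
      by_contra hc
      exact absurd (monoI l' l (not_le.mp hc)) (not_lt.mpr hll)
    have leJ : ∀ l l' : Fin J.card, (J.orderIsoOfFin rfl l : Fin n) ≤ (J.orderIsoOfFin rfl l' : Fin n) →
        l ≤ l' := fun l l' hll => by
      by_contra hc
      exact absurd (monoJ l' l (not_le.mp hc)) (not_lt.mpr hll)
    have ltI : ∀ l l' : Fin I.card, (I.orderIsoOfFin rfl l : Fin n) < (I.orderIsoOfFin rfl l' : Fin n) →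
        l < l' := fun l l' hll => by
      by_contra hc
      have := (I.orderIsoOfFin rfl).monotone (not_lt.mp hc)
      exact absurd hll (not_lt.mpr this)
    have ltJ : ∀ l l' : Fin J.card, (J.orderIsoOfFin rfl l : Fin n) < (J.orderIsoOfFin rfl l' : Fin n) →
        l < l' := fun l l' hll => by
      by_contra hc
      have := (J.orderIsoOfFin rfl).monotone (not_lt.mp hc)
      exact absurd hll (not_lt.mpr this)
    by_cases hlast : (j : ℕ) + 1 = I.card
    · rw [if_pos hlast] at hjv
      -- z is the maximum, y the minimum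
      have ha' : (a : ℕ) + 1 = J.card := by
        by_contra hne
        have hlt : (a : ℕ) + 1 < J.card := lt_of_le_of_ne a.2 hne
        have h1 := monoJ a ⟨a + 1, hlt⟩ (by rw [Fin.lt_def]; simp)
        have hw : (J.orderIsoOfFin rfl ⟨a + 1, hlt⟩ : Fin n) ∈ I :=
          hJI (J.orderIsoOfFin rfl ⟨a + 1, hlt⟩).2
        obtain ⟨l, hl⟩ := exists_index I hw
        rw [ha, ← hj, ← hl] at h1
        have h2 := ltI _ _ h1
        rw [Fin.lt_def] at h2
        have := l.2
        omega
      rw [if_pos ha']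
      by_contra hne
      have hpos : 0 < (b : ℕ) := Nat.pos_of_ne_zero (fun h => hne h.symm)
      have hJ0 : 0 < J.card := lt_of_le_of_lt (Nat.zero_le _) b.2
      have h1 := monoJ ⟨0, hJ0⟩ b (by rw [Fin.lt_def]; exact hpos)
      have hw : (J.orderIsoOfFin rfl ⟨0, hJ0⟩ : Fin n) ∈ I := hJI (J.orderIsoOfFin rfl ⟨0, hJ0⟩).2
      obtain ⟨l, hl⟩ := exists_index I hw
      rw [hb, ← hy1, ← hl] at h1
      have h2 := ltI _ _ h1
      rw [Fin.lt_def, hjv] at h2
      omega
    · rw [if_neg hlast] at hjv
      have hzy : z < y := by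
        rw [← hj, ← hy1]
        apply monoI
        rw [Fin.lt_def, hjv]
        omega
      have hab : a < b := by
        apply ltJ
        rw [ha, hb]
        exact hzy
      have hb2 := b.2
      rw [Fin.lt_def] at hab
      rw [if_neg (by omega)]
      by_contra hne
      have hlt : (a : ℕ) + 1 < b := by omega
      have hlt' : (a : ℕ) + 1 < J.card := by omega
      have h1 := monoJ a ⟨a + 1, hlt'⟩ (by rw [Fin.lt_def]; simp)
      have h2 := monoJ ⟨a + 1, hlt'⟩ b (by rw [Fin.lt_def]; exact hlt)
      have hw : (J.orderIsoOfFin rfl ⟨a + 1, hlt'⟩ : Fin n) ∈ I :=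
        hJI (J.orderIsoOfFin rfl ⟨a + 1, hlt'⟩).2
      obtain ⟨l, hl⟩ := exists_index I hw
      rw [ha, ← hj, ← hl] at h1
      rw [hb, ← hy1, ← hl] at h2
      have h3 := ltI _ _ h1
      have h4 := ltI _ _ h2
      rw [Fin.lt_def] at h3 h4
      rw [hjv] at h4
      omega
  rw [← ha, shuffle_apply, key, hb]

lemma finRotate_sq_ne (k : ℕ) (hk : 3 ≤ k) (i : Fin k) : finRotate k (finRotate k i) ≠ i := by
  intro h
  have h1 := finRotate_val k i
  have h2 := finRotate_val k (finRotate k i)
  rw [h] at h2
  have := i.2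
  split_ifs at h1 h2 <;> omega

lemma bad_rotate_subset {n : ℕ} (I : Finset (Fin n)) :
    badSets finRotate I ⊆ I.image (fun z => {z, shuffle finRotate I z}) := by
  intro J hJ
  rw [mem_badSets] at hJ
  obtain ⟨hJI, h2, y, hy, h⟩ := hJ
  have hz : shuffle finRotate J y ∈ J := shuffle_mem _ J hy
  have h3 : shuffle finRotate J (shuffle finRotate J y) = y :=
    shuffle_rotate_sub I J hJI hz hy h
  have hcard : J.card = 2 := by
    by_contra hne
    obtain ⟨a, ha⟩ := exists_index J hy
    rw [← ha, shuffle_apply, shuffle_apply] at h3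
    have := (J.orderIsoOfFin rfl).injective (Subtype.ext h3)
    exact finRotate_sq_ne _ (by omega) a this
  rw [Finset.mem_image]
  refine ⟨shuffle finRotate J y, hJI hz, ?_⟩
  rw [h]
  have hne : shuffle finRotate J y ≠ y := by
    apply shuffle_ne _ J hy
    intro j hj
    have h1 := finRotate_val _ j
    rw [hj] at h1
    have := j.2
    split_ifs at h1 <;> omega
  apply Finset.eq_of_subset_of_card_le
  · intro w hw
    rw [Finset.mem_insert, Finset.mem_singleton] at hw
    rcases hw with rfl | rfl
    · exact hz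
    · exact hy
  · rw [hcard, Finset.card_pair hne]

theorem card_pairs_le {n : ℕ} (S : (k : ℕ) → Perm (Fin k))
    (hd : ∀ k, 2 ≤ k → k ≤ n → ∀ j, S k j ≠ j) : (pairs n S).card ≤ (pairs n finRotate).card := by
  rw [card_pairs, card_pairs]
  apply Finset.sum_le_sum
  intro I _
  have e1 := good_add_bad S I
  have e2 := good_add_bad finRotate I
  suffices (badSets finRotate I).card ≤ (badSets S I).card by omega
  have hle : (badSets finRotate I).card ≤ I.card :=
    (Finset.card_le_card (bad_rotate_subset I)).trans Finset.card_image_le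
  rcases Nat.lt_or_ge I.card 3 with h3 | h3
  · rcases Nat.lt_or_ge I.card 2 with h2 | h2
    · have : badSets finRotate I = ∅ := by
        rw [Finset.eq_empty_iff_forall_notMem]
        intro J hJ
        rw [mem_badSets] at hJ
        have := Finset.card_le_card hJ.1
        omega
      rw [this]
      simp
    · have hc : I.card = 2 := by omega
      have h1 : (badSets finRotate I).card ≤ 1 := by
        rw [Finset.card_le_one]
        intro J hJ J' hJ'
        rw [mem_badSets] at hJ hJ'
        have a1 := Finset.eq_of_subset_of_card_le hJ.1 (by omega)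
        have a2 := Finset.eq_of_subset_of_card_le hJ'.1 (by omega)
        rw [a1, a2]
      obtain ⟨y, hy⟩ := Finset.card_pos.mp (show 0 < I.card by omega)
      have : 0 < (badSets S I).card := Finset.card_pos.mpr ⟨_, pair_bad S I h2 hd hy⟩
      omega
  · exact hle.trans (card_le_bad S I h3 hd)

/-- Among all deranged strategies the cyclic shift strategy finds the largest number of secret
permutations in exactly three guesses. -/
theorem result (n : ℕ) (S : (k : ℕ) → Perm (Fin k))
    (hS : ∀ k, 2 ≤ k → k ≤ n → ∀ j, S k j ≠ j) :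
    PowerSeries.coeff 3 (gameSeries n S) ≤ PowerSeries.coeff 3 (gameSeries n finRotate) := by
  refine (card_le_pairs n S).trans ((card_pairs_le S hS).trans (pairs_le_card n finRotate ?_))
  intro k hk _ j hj
  have h1 := finRotate_val _ j
  rw [hj] at h1
  have := j.2
  split_ifs at h1 <;> omega

end Pool.Agent.Results.MP_433145_co.CubicMaximality
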